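import Pool.Agent.H66.BP.Targets

/-! # Module GRH (MP_d8fe2e_gt): arc length of the graph of a convex or concave function -/

set_option autoImplicit false

open MeasureTheory Set Filter Topology Metric
open scoped Real ENNReal NNReal

namespace Pool.Agent.H80.BP

open Pool.Agent.H66.BP

/-- the right derivatives bound the slopes -/
def SlopeP (a b : ℝ) (f : ℝ → ℝ) : Prop :=
  ∀ x ∈ Ioo a b, ∀ y ∈ Ioo a b, x < y →
    min (rd f x) (rd f y) ≤ (f y - f x) / (y - x) ∧ (f y - f x) / (y - x) ≤ max (rd f x) (rd f y)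

theorem slopeP_convex {a b : ℝ} {f : ℝ → ℝ} (hf : ConvexOn ℝ (Icc a b) f) : SlopeP a b f := by
  intro x hx y hy hxy
  have hx' : x ∈ interior (Icc a b) := by rwa [interior_Icc]
  have hy' : y ∈ interior (Icc a b) := by rwa [interior_Icc]
  have h1 := hf.rightDeriv_le_slope_of_mem_interior hx' (interior_subset hy') hxy
  have h2 := hf.slope_le_leftDeriv_of_mem_interior (interior_subset hx') hy' hxy
  have h3 := hf.leftDeriv_le_rightDeriv_of_mem_interior hy'
  rw [slope_def_field] at h1 h2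
  exact ⟨(min_le_left _ _).trans h1, (h2.trans h3).trans (le_max_right _ _)⟩

theorem rd_neg (f : ℝ → ℝ) (x : ℝ) : rd (-f) x = - rd f x := by
  unfold rd
  rw [derivWithin.neg]

theorem slopeP_concave {a b : ℝ} {f : ℝ → ℝ} (hf : ConcaveOn ℝ (Icc a b) f) : SlopeP a b f := by
  intro x hx y hy hxy
  obtain ⟨h1, h2⟩ := slopeP_convex hf.neg x hx y hy hxy
  rw [rd_neg, rd_neg, Pi.neg_apply, Pi.neg_apply] at h1 h2
  have e : (-f y - -f x) / (y - x) = -((f y - f x) / (y - x)) := by ring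
  rw [e] at h1 h2
  rw [min_neg_neg] at h1
  rw [max_neg_neg] at h2
  exact ⟨neg_le_neg_iff.1 h2, neg_le_neg_iff.1 h1⟩

/-- the graph map -/
noncomputable def gm (f : ℝ → ℝ) (x : ℝ) : E := !₂[f x, x]

theorem dist_gm (f : ℝ → ℝ) (x y : ℝ) :
    dist (gm f x) (gm f y) = Real.sqrt ((f x - f y) ^ 2 + (x - y) ^ 2) := by
  unfold gm
  rw [EuclideanSpace.dist_eq, Fin.sum_univ_two]
  simp [Real.dist_eq, sq_abs]

theorem abs_le_dist (y y' : E) : |y 1 - y' 1| ≤ dist y y' := by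
  rw [EuclideanSpace.dist_eq, Fin.sum_univ_two, Real.dist_eq, Real.dist_eq]
  refine Real.le_sqrt_of_sq_le ?_
  nlinarith [sq_nonneg |y 0 - y' 0|]

/-- two-sided bounds for the measure of the image -/
theorem bounds (f : ℝ → ℝ) (B : Set ℝ) (m M : ℝ) (hm : 0 < m) (hM : 0 ≤ M)
    (h : ∀ x ∈ B, ∀ y ∈ B, m * |x - y| ≤ dist (gm f x) (gm f y) ∧
      dist (gm f x) (gm f y) ≤ M * |x - y|) :
    ENNReal.ofReal m * volume B ≤ (μH[1] : Measure E) (gm f '' B) ∧
      (μH[1] : Measure E) (gm f '' B) ≤ ENNReal.ofReal M * volume B := by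
  constructor
  · have hL : LipschitzOnWith (Real.toNNReal m⁻¹) (fun y : E => y 1) (gm f '' B) := by
      refine LipschitzOnWith.of_dist_le_mul ?_
      rintro _ ⟨x, hx, rfl⟩ _ ⟨y, hy, rfl⟩
      have h1 := (h x hx y hy).1
      rw [Real.coe_toNNReal _ (inv_nonneg.2 hm.le), Real.dist_eq]
      show |x - y| ≤ m⁻¹ * dist (gm f x) (gm f y)
      rw [inv_mul_eq_div, le_div_iff₀ hm]
      linarith
    have h1 := hL.hausdorffMeasure_image_le (d := 1) zero_le_one
    rw [hausdorffMeasure_real, ENNReal.rpow_one, image_image] at h1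
    have h2 : (fun x => (gm f x) 1) '' B = B := by
      have : (fun x => (gm f x) 1) = id := by
        ext x
        rfl
      rw [this, image_id]
    rw [h2] at h1
    have h3 : ENNReal.ofReal m * volume B ≤
        ENNReal.ofReal m * (((Real.toNNReal m⁻¹ : ℝ≥0) : ℝ≥0∞) *
          (μH[1] : Measure E) (gm f '' B)) := by
      gcongr
    refine h3.trans (le_of_eq ?_)
    rw [← mul_assoc]
    have h4 : ENNReal.ofReal m * ((Real.toNNReal m⁻¹ : ℝ≥0) : ℝ≥0∞) = 1 := by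
      show ENNReal.ofReal m * ENNReal.ofReal m⁻¹ = 1
      rw [← ENNReal.ofReal_mul hm.le, mul_inv_cancel₀ hm.ne', ENNReal.ofReal_one]
    rw [h4, one_mul]
  · have hL : LipschitzOnWith (Real.toNNReal M) (gm f) B := by
      refine LipschitzOnWith.of_dist_le_mul fun x hx y hy => ?_
      rw [Real.coe_toNNReal _ hM, Real.dist_eq]
      exact (h x hx y hy).2
    have h1 := hL.hausdorffMeasure_image_le (d := 1) zero_le_one
    rw [hausdorffMeasure_real, ENNReal.rpow_one] at h1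
    exact h1

theorem sqrt_lip (s t : ℝ) : Real.sqrt (1 + s ^ 2) ≤ Real.sqrt (1 + t ^ 2) + |s - t| := by
  refine Real.sqrt_le_iff.2 ⟨by positivity, ?_⟩
  have h1 : Real.sqrt (1 + t ^ 2) ^ 2 = 1 + t ^ 2 := Real.sq_sqrt (by positivity)
  have h2 : |t| ≤ Real.sqrt (1 + t ^ 2) := Real.abs_le_sqrt (by linarith)
  have h3 : |s| ≤ |t| + |s - t| := by
    have := abs_add_le t (s - t)
    rwa [add_sub_cancel] at this
  have h4 : s ^ 2 ≤ (|t| + |s - t|) ^ 2 := by
    rw [← sq_abs s]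
    exact pow_le_pow_left₀ (abs_nonneg _) h3 2
  have h5 := abs_nonneg (s - t)
  have h6 : |t| ^ 2 = t ^ 2 := sq_abs t
  nlinarith [mul_le_mul_of_nonneg_right h2 h5]

/-- the pieces -/
def piece (f : ℝ → ℝ) (ε : ℝ) (j : ℤ) : Set ℝ := {x | ⌊rd f x / ε⌋ = j}

theorem meas_rd (f : ℝ → ℝ) : Measurable (rd f) := measurable_derivWithin_Ioi f

theorem meas_piece (f : ℝ → ℝ) (ε : ℝ) (j : ℤ) : MeasurableSet (piece f ε j) := by
  have : Measurable fun x => ⌊rd f x / ε⌋ := Int.measurable_floor.comp ((meas_rd f).div_const ε)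
  exact this (measurableSet_singleton j)

theorem mem_piece {f : ℝ → ℝ} {ε : ℝ} (hε : 0 < ε) {j : ℤ} {x : ℝ} (hx : x ∈ piece f ε j) :
    (j : ℝ) * ε ≤ rd f x ∧ rd f x ≤ j * ε + ε := by
  have h := hx
  unfold piece at h
  rw [mem_ofPred_eq, Int.floor_eq_iff, le_div_iff₀ hε, div_lt_iff₀ hε] at h
  constructor
  · exact h.1
  · linarith [h.2]

theorem piece_bounds {a b : ℝ} {f : ℝ → ℝ} (hf : SlopeP a b f) {ε : ℝ} (hε : 0 < ε) (j : ℤ)
    {x y : ℝ} (hx : x ∈ Ioo a b ∩ piece f ε j) (hy : y ∈ Ioo a b ∩ piece f ε j) :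
    (Real.sqrt (1 + (j * ε) ^ 2) / (1 + ε)) * |x - y| ≤ dist (gm f x) (gm f y) ∧
      dist (gm f x) (gm f y) ≤ (Real.sqrt (1 + (j * ε) ^ 2) * (1 + ε)) * |x - y| := by
  wlog hxy : x ≤ y generalizing x y
  · have := this hy hx (le_of_not_ge hxy)
    rwa [dist_comm, abs_sub_comm] at this
  rcases hxy.eq_or_lt with rfl | hlt
  · simp
  have hpos : 0 < y - x := sub_pos.2 hlt
  obtain ⟨h1, h2⟩ := hf x hx.1 y hy.1 hlt
  obtain ⟨x1, x2⟩ := mem_piece hε hx.2
  obtain ⟨y1, y2⟩ := mem_piece hε hy.2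
  set t := (f y - f x) / (y - x) with ht
  have ht1 : (j : ℝ) * ε ≤ t := (le_min x1 y1).trans h1
  have ht2 : t ≤ j * ε + ε := h2.trans (max_le x2 y2)
  have hd : dist (gm f x) (gm f y) = Real.sqrt (1 + t ^ 2) * |x - y| := by
    rw [dist_gm, ← Real.sqrt_sq_eq_abs, ← Real.sqrt_mul (by positivity)]
    congr 1
    have : f x - f y = t * (x - y) := by
      rw [ht]
      field_simp
      ring
    rw [this]
    ring
  have ha : |t - j * ε| ≤ ε := abs_le.2 ⟨by linarith, by linarith⟩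
  have s1 := sqrt_lip t (j * ε)
  have s2 := sqrt_lip (j * ε) t
  rw [abs_sub_comm] at s2
  have one1 : 1 ≤ Real.sqrt (1 + t ^ 2) := Real.one_le_sqrt.2 (by nlinarith [sq_nonneg t])
  have one2 : 1 ≤ Real.sqrt (1 + (j * ε) ^ 2) :=
    Real.one_le_sqrt.2 (by nlinarith [sq_nonneg ((j : ℝ) * ε)])
  rw [hd]
  constructor
  · refine mul_le_mul_of_nonneg_right ?_ (abs_nonneg _)
    rw [div_le_iff₀ (by linarith)]
    nlinarith
  · refine mul_le_mul_of_nonneg_right ?_ (abs_nonneg _)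
    nlinarith

theorem al_bounds {f : ℝ → ℝ} {ε : ℝ} (hε : 0 < ε) (j : ℤ) {x : ℝ} (hx : x ∈ piece f ε j) :
    Real.sqrt (1 + (j * ε) ^ 2) / (1 + ε) ≤ al f x ∧
      al f x ≤ Real.sqrt (1 + (j * ε) ^ 2) * (1 + ε) := by
  obtain ⟨ht1, ht2⟩ := mem_piece hε hx
  unfold al
  set t := rd f x
  have ha : |t - j * ε| ≤ ε := abs_le.2 ⟨by linarith, by linarith⟩
  have s1 := sqrt_lip t (j * ε)
  have s2 := sqrt_lip (j * ε) t
  rw [abs_sub_comm] at s2
  have one1 : 1 ≤ Real.sqrt (1 + t ^ 2) := Real.one_le_sqrt.2 (by nlinarith [sq_nonneg t])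
  have one2 : 1 ≤ Real.sqrt (1 + (j * ε) ^ 2) :=
    Real.one_le_sqrt.2 (by nlinarith [sq_nonneg ((j : ℝ) * ε)])
  constructor
  · rw [div_le_iff₀ (by linarith)]
    nlinarith
  · nlinarith

theorem gm_inj (f : ℝ → ℝ) : Function.Injective (gm f) := by
  intro x y h
  have : (gm f x) 1 = (gm f y) 1 := by rw [h]
  exact this

theorem compare {a b : ℝ} {f : ℝ → ℝ} (hf : SlopeP a b f) (hc : ContinuousOn f (Icc a b))
    {A : Set ℝ} (hA : MeasurableSet A) (hAab : A ⊆ Ioo a b) {ε : ℝ} (hε : 0 < ε) :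
    (μH[1] : Measure E) (gm f '' A) ≤
      ENNReal.ofReal ((1 + ε) ^ 2) * ∫⁻ x in A, ENNReal.ofReal (al f x) ∧
    ∫⁻ x in A, ENNReal.ofReal (al f x) ≤
      ENNReal.ofReal ((1 + ε) ^ 2) * (μH[1] : Measure E) (gm f '' A) := by
  have hAU : A = ⋃ j : ℤ, A ∩ piece f ε j := by
    rw [← inter_iUnion, eq_comm, inter_eq_left]
    intro x _
    rw [mem_iUnion]
    exact ⟨_, rfl⟩
  have hmeas : ∀ j, MeasurableSet (A ∩ piece f ε j) := fun j => hA.inter (meas_piece f ε j)
  have hdisj : Pairwise (Function.onFun Disjoint fun j : ℤ => A ∩ piece f ε j) := by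
    intro i j hij
    rw [Function.onFun, Set.disjoint_left]
    rintro x ⟨-, hx⟩ ⟨-, hx'⟩
    unfold piece at hx hx'
    rw [mem_ofPred_eq] at hx hx'
    exact hij (hx.symm.trans hx')
  have hcg : ContinuousOn (gm f) (Ioo a b) := by
    have h1 : ContinuousOn f (Ioo a b) := hc.mono Ioo_subset_Icc_self
    unfold gm
    refine (PiLp.continuous_toLp 2 _).comp_continuousOn ?_
    refine continuousOn_pi.2 fun i => ?_
    fin_cases i
    · exact h1
    · exact continuousOn_id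
  have hH : (μH[1] : Measure E) (gm f '' A) =
      ∑' j : ℤ, (μH[1] : Measure E) (gm f '' (A ∩ piece f ε j)) := by
    conv_lhs => rw [hAU, image_iUnion]
    refine measure_iUnion ?_ ?_
    · intro i j hij
      rw [Function.onFun, disjoint_image_iff (gm_inj f)]
      exact hdisj hij
    · intro j
      exact (hmeas j).image_of_continuousOn_injOn
        (hcg.mono (inter_subset_left.trans hAab)) (gm_inj f).injOn
  have hI : ∫⁻ x in A, ENNReal.ofReal (al f x) =
      ∑' j : ℤ, ∫⁻ x in A ∩ piece f ε j, ENNReal.ofReal (al f x) := by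
    conv_lhs => rw [hAU]
    exact lintegral_iUnion hmeas hdisj _
  -- the pieces
  have h1ε : 0 < 1 + ε := by linarith
  have hpieces : ∀ j : ℤ,
      ((μH[1] : Measure E) (gm f '' (A ∩ piece f ε j)) ≤
        ENNReal.ofReal ((1 + ε) ^ 2) * ∫⁻ x in A ∩ piece f ε j, ENNReal.ofReal (al f x)) ∧
      (∫⁻ x in A ∩ piece f ε j, ENNReal.ofReal (al f x) ≤
        ENNReal.ofReal ((1 + ε) ^ 2) * (μH[1] : Measure E) (gm f '' (A ∩ piece f ε j))) := by
    intro j
    set φ := Real.sqrt (1 + (j * ε) ^ 2) with hφ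
    have hφ1 : 1 ≤ φ := Real.one_le_sqrt.2 (by nlinarith [sq_nonneg ((j : ℝ) * ε)])
    obtain ⟨b1, b2⟩ := bounds f (A ∩ piece f ε j) (φ / (1 + ε)) (φ * (1 + ε)) (by positivity)
      (by positivity) (fun x hx y hy =>
        piece_bounds hf hε j ⟨hAab hx.1, hx.2⟩ ⟨hAab hy.1, hy.2⟩)
    have i1 : ENNReal.ofReal (φ / (1 + ε)) * volume (A ∩ piece f ε j) ≤
        ∫⁻ x in A ∩ piece f ε j, ENNReal.ofReal (al f x) := by
      rw [← setLIntegral_const]
      exact setLIntegral_mono' (hmeas j) fun x hx =>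
        ENNReal.ofReal_le_ofReal (al_bounds hε j hx.2).1
    have i2 : ∫⁻ x in A ∩ piece f ε j, ENNReal.ofReal (al f x) ≤
        ENNReal.ofReal (φ * (1 + ε)) * volume (A ∩ piece f ε j) := by
      rw [← setLIntegral_const]
      exact setLIntegral_mono' (hmeas j) fun x hx =>
        ENNReal.ofReal_le_ofReal (al_bounds hε j hx.2).2
    have e : ENNReal.ofReal (φ * (1 + ε)) =
        ENNReal.ofReal ((1 + ε) ^ 2) * ENNReal.ofReal (φ / (1 + ε)) := by
      rw [← ENNReal.ofReal_mul (by positivity)]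
      congr 1
      field_simp
    rw [e, mul_assoc] at b2 i2
    exact ⟨b2.trans (by gcongr), i2.trans (by gcongr)⟩
  rw [hH, hI, ← ENNReal.tsum_mul_left, ← ENNReal.tsum_mul_left]
  exact ⟨ENNReal.tsum_le_tsum fun j => (hpieces j).1, ENNReal.tsum_le_tsum fun j => (hpieces j).2⟩

theorem le_of_forall_eps {x y : ℝ≥0∞}
    (h : ∀ ε : ℝ, 0 < ε → x ≤ ENNReal.ofReal ((1 + ε) ^ 2) * y) : x ≤ y := by
  have h1 : Tendsto (fun ε : ℝ => ENNReal.ofReal ((1 + ε) ^ 2) * y) (𝓝[>] 0)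
      (𝓝 (ENNReal.ofReal ((1 + 0) ^ 2) * y)) := by
    refine ENNReal.Tendsto.mul_const ?_ (Or.inl ?_)
    · refine (ENNReal.continuous_ofReal.tendsto _).comp ?_
      have : Continuous fun ε : ℝ => (1 + ε) ^ 2 := by fun_prop
      exact (this.tendsto 0).mono_left nhdsWithin_le_nhds
    · simp
  have h2 : ENNReal.ofReal ((1 + 0) ^ 2) * y = y := by simp
  rw [h2] at h1
  exact ge_of_tendsto h1 (eventually_nhdsWithin_of_forall fun ε hε => h ε hε)

theorem grh : T_GRH := by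
  intro a b f hab hf hc A hA hAab
  have hS : SlopeP a b f := by
    rcases hf with hf | hf
    · exact slopeP_convex hf
    · exact slopeP_concave hf
  refine le_antisymm ?_ ?_
  · exact le_of_forall_eps fun ε hε => (compare hS hc hA hAab hε).1
  · exact le_of_forall_eps fun ε hε => (compare hS hc hA hAab hε).2

end Pool.Agent.H80.BP
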