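import Pool.Agent.H66.BP.Targets

/-! # Module RC (MP_d8fe2e_gt): continuity of roots -/

set_option autoImplicit false

open Set Filter Topology Metric Polynomial

namespace Pool.Agent.H80.BP

theorem cont_coeff {ι : Type} (s : Finset ι) (k : ℕ) :
    Continuous fun r : ι → ℂ => (∏ j ∈ s, (X - C (r j))).coeff k := by
  classical
  induction s using Finset.induction_on generalizing k with
  | empty => simpa using continuous_const
  | insert a s ha ih =>
    simp only [Finset.prod_insert ha, Polynomial.coeff_mul]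
    refine continuous_finsetSum _ fun x _ => Continuous.mul ?_ (ih _)
    simp only [coeff_sub, coeff_C]
    split_ifs
    · exact continuous_const.sub (continuous_apply a)
    · exact continuous_const

theorem exists_roots {n : ℕ} {p : ℂ[X]} (hp : p.Monic) (hn : p.natDegree = n) :
    ∃ r : Fin n → ℂ, p = ∏ j, (X - C (r j)) := by
  have h1 := IsAlgClosed.card_roots_eq_natDegree (p := p)
  have h2 := (IsAlgClosed.splits p).eq_prod_roots_of_monic hp
  obtain ⟨L, hL⟩ := Quot.exists_rep p.roots
  have hL' : (L : Multiset ℂ) = p.roots := hL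
  have hlen : L.length = n := by
    rw [← Multiset.coe_card, hL', ← hn]
    exact h1
  subst hlen
  refine ⟨L.get, ?_⟩
  have h3 : Multiset.map L.get Finset.univ.val = p.roots := by
    rw [Fin.univ_val_map, List.ofFn_get, hL']
  conv_lhs => rw [h2]
  rw [← h3, Multiset.map_map]
  rfl

theorem rm_prod {n : ℕ} (r : Fin n → ℂ) (x : ℂ) :
    (∏ j, (X - C (r j))).rootMultiplicity x = ∑ j, if r j = x then 1 else 0 := by
  classical
  rw [← count_roots, roots_prod]
  · simp only [roots_X_sub_C]
    rw [Multiset.count_bind, Finset.sum]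
    congr 1
    refine Multiset.map_congr rfl fun j _ => ?_
    rw [Multiset.count_singleton]
    simp only [eq_comm]
  · exact Finset.prod_ne_zero_iff.2 fun j _ => X_sub_C_ne_zero _

theorem sum_ball {n : ℕ} (r : Fin n → ℂ) (S : Set ℂ) :
    ∑ᶠ x ∈ S, (∏ j, (X - C (r j))).rootMultiplicity x =
      ∑ j, open Classical in if r j ∈ S then 1 else 0 := by
  classical
  simp only [rm_prod]
  have h0 : ∀ x, (∑ᶠ (_ : x ∈ S), ∑ j, if r j = x then 1 else 0) =
      ∑ j, if r j = x ∧ x ∈ S then 1 else 0 := by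
    intro x
    by_cases hx : x ∈ S
    · simp [hx]
    · simp [hx]
  rw [finsum_congr h0, finsum_sum_comm]
  · refine Finset.sum_congr rfl fun j _ => ?_
    rw [finsum_eq_single _ (r j)]
    · simp
    · intro x hx
      rw [if_neg]
      exact fun h => hx h.1.symm
  · intro j _
    refine (Set.finite_singleton (r j)).subset fun x hx => ?_
    rw [Function.mem_support] at hx
    by_contra h
    apply hx
    rw [if_neg]
    exact fun h' => h (by rw [h'.1]; exact rfl)

theorem rc : Pool.Agent.H66.BP.T_RC := by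
  intro X' l p q n hp hq hqn hc ζ
  obtain ⟨r, hr⟩ := exists_roots hq hqn
  obtain ⟨ε₁, hε₁, hε⟩ : ∃ ε₁ > 0, ∀ j, r j ≠ ζ → ε₁ ≤ dist (r j) ζ := by
    classical
    by_cases hne : (Finset.univ.filter fun j => r j ≠ ζ).Nonempty
    · refine ⟨(Finset.univ.filter fun j => r j ≠ ζ).inf' hne fun j => dist (r j) ζ, ?_, ?_⟩
      · rw [gt_iff_lt, Finset.lt_inf'_iff]
        intro j hj
        rw [Finset.mem_filter] at hj
        exact dist_pos.2 hj.2
      · intro j hj
        exact Finset.inf'_le (fun j => dist (r j) ζ) (Finset.mem_filter.2 ⟨Finset.mem_univ j, hj⟩)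
    · refine ⟨1, one_pos, fun j hj => ?_⟩
      exact absurd ⟨j, Finset.mem_filter.2 ⟨Finset.mem_univ _, hj⟩⟩ hne
  refine ⟨ε₁, hε₁, fun ε h0 h1 => ?_⟩
  rw [Filter.Eventually, mem_iff_ultrafilter]
  intro U hU
  -- the roots of the polynomials
  obtain ⟨s, hs⟩ : ∃ s : X' → Fin n → ℂ, ∀ i, (p i).Monic ∧ (p i).natDegree = n →
      p i = ∏ j, (X - C (s i j)) := by
    classical
    refine ⟨fun i => if h : (p i).Monic ∧ (p i).natDegree = n then
      (exists_roots h.1 h.2).choose else 0, fun i h => ?_⟩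
    simp only [dif_pos h]
    exact (exists_roots h.1 h.2).choose_spec
  have hpU : ∀ᶠ i in (U : Filter X'), (p i).Monic ∧ (p i).natDegree = n := hU hp
  -- bounded
  obtain ⟨B, hB⟩ : ∃ B : ℝ, ∀ᶠ i in (U : Filter X'), ∀ j, ‖s i j‖ ≤ B := by
    have h2 : ∀ k ∈ Finset.range n, ∀ᶠ i in (U : Filter X'),
        ‖(p i).coeff k‖ < ‖q.coeff k‖ + 1 := by
      intro k _
      have := ((hc k).mono_left hU).norm
      exact this.eventually (gt_mem_nhds (lt_add_one _))
    have h3 := (Finset.eventually_all _).2 h2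
    refine ⟨(∑ k ∈ Finset.range n, (‖q.coeff k‖ + 1)) + 1, ?_⟩
    filter_upwards [h3, hpU] with i hi hpi j
    have hroot : (p i).IsRoot (s i j) := by
      rw [hs i hpi, Polynomial.IsRoot, eval_prod]
      exact Finset.prod_eq_zero (Finset.mem_univ j) (by simp)
    have h4 := IsRoot.norm_lt_cauchyBound hpi.1.ne_zero hroot
    have h5 : (cauchyBound (p i) : ℝ) ≤ (∑ k ∈ Finset.range n, (‖q.coeff k‖ + 1)) + 1 := by
      unfold cauchyBound
      rw [hpi.1.leadingCoeff, hpi.2, nnnorm_one, div_one]
      push_cast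
      gcongr
      have h6 : (Finset.range n).sup (fun x => ‖(p i).coeff x‖₊) ≤
          ∑ k ∈ Finset.range n, (‖q.coeff k‖₊ + 1) := by
        refine Finset.sup_le fun k hk => ?_
        have h7 : ‖(p i).coeff k‖₊ ≤ ‖q.coeff k‖₊ + 1 := by
          have := (hi k hk).le
          exact_mod_cast this
        exact h7.trans (Finset.single_le_sum (f := fun k => ‖q.coeff k‖₊ + 1)
          (fun _ _ => zero_le) hk)
      have h8 : (((Finset.range n).sup (fun x => ‖(p i).coeff x‖₊) : NNReal) : ℝ) ≤
          ((∑ k ∈ Finset.range n, (‖q.coeff k‖₊ + 1) : NNReal) : ℝ) := by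
        exact_mod_cast h6
      refine h8.trans (le_of_eq ?_)
      push_cast
      rfl
    have h6 : ‖s i j‖ < (cauchyBound (p i) : ℝ) := by
      exact_mod_cast h4
    linarith
  -- limit
  obtain ⟨t, ht⟩ : ∃ t : Fin n → ℂ, Tendsto s U (𝓝 t) := by
    have hK : IsCompact (Set.pi Set.univ fun _ : Fin n => closedBall (0 : ℂ) B) :=
      isCompact_univ_pi fun _ => isCompact_closedBall _ _
    have h2 : (Set.pi Set.univ fun _ : Fin n => closedBall (0 : ℂ) B) ∈ Ultrafilter.map s U := by
      rw [Ultrafilter.mem_map]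
      filter_upwards [hB] with i hi
      intro j _
      rw [mem_closedBall, dist_zero_right]
      exact hi j
    obtain ⟨t, -, ht⟩ := hK.ultrafilter_le_nhds (Ultrafilter.map s U)
      (le_principal_iff.2 h2)
    exact ⟨t, ht⟩
  have hqt : q = ∏ j, (X - C (t j)) := by
    ext k
    have h2 : Tendsto (fun i => (∏ j, (X - C (s i j))).coeff k) U
        (𝓝 ((∏ j, (X - C (t j))).coeff k)) :=
      ((cont_coeff Finset.univ k).tendsto t).comp ht
    have h3 : Tendsto (fun i => (p i).coeff k) U (𝓝 ((∏ j, (X - C (t j))).coeff k)) := by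
      refine h2.congr' ?_
      filter_upwards [hpU] with i hi
      rw [← hs i hi]
    exact tendsto_nhds_unique ((hc k).mono_left hU) h3
  -- roots of `t` are far from `ζ` or equal to `ζ`
  have hfar : ∀ j, t j ≠ ζ → ε₁ ≤ dist (t j) ζ := by
    intro j hj
    have h2 : q.IsRoot (t j) := by
      rw [hqt, Polynomial.IsRoot, eval_prod]
      exact Finset.prod_eq_zero (Finset.mem_univ j) (by simp)
    rw [hr, Polynomial.IsRoot, eval_prod, Finset.prod_eq_zero_iff] at h2
    obtain ⟨j', -, hj'⟩ := h2
    simp only [eval_sub, eval_X, eval_C] at hj'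
    have h3 : t j = r j' := sub_eq_zero.1 hj'
    rw [h3] at hj ⊢
    exact hε j' hj
  have hev : ∀ᶠ i in (U : Filter X'), ∀ j, (s i j ∈ ball ζ ε ↔ t j = ζ) := by
    rw [eventually_all]
    intro j
    have h2 : Tendsto (fun i => dist (s i j) ζ) U (𝓝 (dist (t j) ζ)) :=
      (tendsto_pi_nhds.1 ht j).dist tendsto_const_nhds
    by_cases hj : t j = ζ
    · have h3 : dist (t j) ζ < ε := by rw [hj, dist_self]; exact h0
      filter_upwards [h2.eventually (gt_mem_nhds h3)] with i hi
      exact ⟨fun _ => hj, fun _ => hi⟩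
    · have h3 : ε < dist (t j) ζ := h1.trans_le (hfar j hj)
      filter_upwards [h2.eventually (lt_mem_nhds h3)] with i hi
      exact ⟨fun h => absurd (mem_ball.1 h) (not_lt.2 hi.le), fun h => absurd h hj⟩
  filter_upwards [hev, hpU] with i hi hpi
  show ∑ᶠ x ∈ ball ζ ε, (p i).rootMultiplicity x = q.rootMultiplicity ζ
  rw [hs i hpi, sum_ball, hqt, rm_prod]
  refine Finset.sum_congr rfl fun j _ => ?_
  simp only [hi j]

end Pool.Agent.H80.BP
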