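import Pool.Agent.H66.BP.Targets

/-! # Module SMP (MP_d8fe2e_gt): Poisson inequality for sub-mean functions -/

set_option autoImplicit false

open Set Filter Topology Metric Complex Real
open scoped ComplexConjugate

namespace Pool.Agent.H80.BP

open Pool.Agent.H66.BP

theorem circInt {f : ℂ → ℝ} (hf : Continuous f) (c : ℂ) (r : ℝ) : CircleIntegrable f c r :=
  hf.continuousOn.circleIntegrable'

theorem max_principle {v : ℂ → ℝ} (hv : SubM v) {c : ℂ} {R : ℝ}
    (hs : ∀ z ∈ sphere c R, v z ≤ 0) : ∀ z ∈ closedBall c R, v z ≤ 0 := by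
  obtain ⟨hc, hsub⟩ := hv
  by_contra hcon
  push Not at hcon
  obtain ⟨z₁, hz₁, hpos⟩ := hcon
  obtain ⟨zm, hzm, hmax⟩ := (isCompact_closedBall c R).exists_isMaxOn ⟨z₁, hz₁⟩ hc.continuousOn
  have hm : 0 < v zm := hpos.trans_le (hmax hz₁)
  have hS : IsCompact (closedBall c R ∩ v ⁻¹' {v zm}) :=
    (isCompact_closedBall c R).inter_right (isClosed_singleton.preimage hc)
  obtain ⟨z₀, hz₀, hfar⟩ := hS.exists_isMaxOn (f := fun z => dist z c) ⟨zm, hzm, rfl⟩
    (by fun_prop)
  have hv₀ : v z₀ = v zm := hz₀.2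
  have hlt : dist z₀ c < R := by
    refine lt_of_le_of_ne (mem_closedBall.1 hz₀.1) fun h => ?_
    have := hs z₀ (mem_sphere.2 h)
    rw [hv₀] at this
    exact absurd hm (not_lt.2 this)
  obtain ⟨r₀, hr₀, hr⟩ := hsub z₀
  obtain ⟨r, hr0, hrr₀, hrR⟩ : ∃ r, 0 < r ∧ r < r₀ ∧ r < R - dist z₀ c := by
    obtain ⟨r, h1, h2⟩ := exists_between (show (0 : ℝ) < min r₀ (R - dist z₀ c) from
      lt_min hr₀ (sub_pos.2 hlt))
    exact ⟨r, h1, h2.trans_le (min_le_left _ _), h2.trans_le (min_le_right _ _)⟩
  have hle : ∀ z, dist z z₀ ≤ r → v z ≤ v zm := by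
    intro z hz
    refine hmax ?_
    rw [mem_closedBall]
    linarith [dist_triangle z z₀ c]
  -- a point which is farther away
  obtain ⟨y, hy1, hy2⟩ : ∃ y, dist y z₀ = r ∧ dist z₀ c < dist y c := by
    by_cases h0 : z₀ = c
    · refine ⟨z₀ + r, ?_, ?_⟩
      · rw [Complex.dist_eq, add_sub_cancel_left, norm_real, norm_eq_abs, abs_of_pos hr0]
      · rw [h0, dist_self, Complex.dist_eq, add_sub_cancel_left, norm_real, norm_eq_abs, abs_of_pos hr0]
        exact hr0
    · have hn : 0 < ‖z₀ - c‖ := norm_pos_iff.2 (sub_ne_zero.2 h0)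
      refine ⟨z₀ + ((r / ‖z₀ - c‖ : ℝ) : ℂ) * (z₀ - c), ?_, ?_⟩
      · rw [Complex.dist_eq, add_sub_cancel_left, norm_mul, norm_real, norm_eq_abs,
          abs_of_pos (div_pos hr0 hn), div_mul_cancel₀ _ hn.ne']
      · rw [Complex.dist_eq, Complex.dist_eq,
          show z₀ + ((r / ‖z₀ - c‖ : ℝ) : ℂ) * (z₀ - c) - c =
            ((1 + r / ‖z₀ - c‖ : ℝ) : ℂ) * (z₀ - c) by push_cast; ring,
          norm_mul, norm_real, norm_eq_abs, abs_of_pos (by positivity), add_mul, one_mul,
          div_mul_cancel₀ _ hn.ne']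
        linarith
  have hvy : v y < v zm := by
    refine lt_of_le_of_ne (hle y hy1.le) fun h => ?_
    have h1 : y ∈ closedBall c R ∩ v ⁻¹' {v zm} := by
      refine ⟨?_, h⟩
      rw [mem_closedBall]
      linarith [dist_triangle y z₀ c]
    exact absurd hy2 (not_lt.2 (hfar h1))
  obtain ⟨θ₀, hθ₀, hθy⟩ : ∃ θ ∈ Ioc 0 (2 * π), circleMap z₀ r θ = y := by
    have : y ∈ circleMap z₀ r '' Ioc 0 (2 * π) := by
      rw [image_circleMap_Ioc, mem_sphere, hy1, abs_of_pos hr0]
    exact this
  have h1 := hr r hr0 hrr₀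
  rw [circleAverage_def] at h1
  have h2 : ∫ θ in (0 : ℝ)..2 * π, v (circleMap z₀ r θ) < ∫ θ in (0 : ℝ)..2 * π, v zm := by
    refine intervalIntegral.integral_lt_integral_of_continuousOn_of_le_of_exists_lt
      Real.two_pi_pos (hc.comp (continuous_circleMap z₀ r)).continuousOn continuousOn_const ?_ ?_
    · intro θ _
      refine hle _ ?_
      rw [Complex.dist_eq, circleMap_sub_center, norm_circleMap_zero, abs_of_pos hr0]
    · exact ⟨θ₀, ⟨hθ₀.1.le, hθ₀.2⟩, by rw [hθy]; exact hvy⟩
  rw [intervalIntegral.integral_const, sub_zero] at h2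
  have h3 : (2 * π)⁻¹ • ∫ θ in (0 : ℝ)..2 * π, v (circleMap z₀ r θ) < v zm := by
    have h4 : (2 * π)⁻¹ * ∫ θ in (0 : ℝ)..2 * π, v (circleMap z₀ r θ) <
        (2 * π)⁻¹ * ((2 * π) • v zm) :=
      mul_lt_mul_of_pos_left h2 (inv_pos.2 Real.two_pi_pos)
    rw [smul_eq_mul, ← mul_assoc, inv_mul_cancel₀ Real.two_pi_pos.ne', one_mul] at h4
    exact h4
  rw [hv₀] at h1
  linarith

/-! ### density of real parts of polynomials on the circle -/

instance : Fact (0 < 2 * π) := ⟨Real.two_pi_pos⟩

/-- trigonometric polynomials -/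
def PP (F : C(AddCircle (2 * π), ℂ)) : Prop :=
  ∃ q₁ q₂ : Polynomial ℂ, ∀ θ : ℝ, F (θ : AddCircle (2 * π)) =
    q₁.eval (exp (θ * I)) + conj (q₂.eval (exp (θ * I)))

theorem PP_fourier (n : ℤ) : PP (fourier n) := by
  have hπ : (π : ℂ) ≠ 0 := by exact_mod_cast Real.pi_ne_zero
  obtain ⟨k, rfl | rfl⟩ := n.eq_nat_or_neg
  · refine ⟨Polynomial.X ^ k, 0, fun θ => ?_⟩
    rw [fourier_coe_apply]
    simp only [Polynomial.eval_pow, Polynomial.eval_X, Polynomial.eval_zero, map_zero, add_zero]
    rw [← Complex.exp_nat_mul]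
    congr 1
    push_cast
    field_simp
  · refine ⟨0, Polynomial.X ^ k, fun θ => ?_⟩
    rw [fourier_coe_apply]
    simp only [Polynomial.eval_pow, Polynomial.eval_X, Polynomial.eval_zero, zero_add]
    rw [← Complex.exp_nat_mul, ← Complex.exp_conj]
    congr 1
    simp only [map_mul, conj_I, conj_ofReal, map_natCast]
    push_cast
    field_simp

theorem PP_span (F : C(AddCircle (2 * π), ℂ))
    (hF : F ∈ Submodule.span ℂ (range (@fourier (2 * π)))) : PP F := by
  induction hF using Submodule.span_induction with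
  | mem x hx =>
    obtain ⟨n, rfl⟩ := hx
    exact PP_fourier n
  | zero => exact ⟨0, 0, fun θ => by simp⟩
  | add x y _ _ hx hy =>
    obtain ⟨a, b, hab⟩ := hx
    obtain ⟨a', b', hab'⟩ := hy
    refine ⟨a + a', b + b', fun θ => ?_⟩
    rw [ContinuousMap.add_apply, hab, hab']
    simp only [Polynomial.eval_add, map_add]
    ring
  | smul t x _ hx =>
    obtain ⟨a, b, hab⟩ := hx
    refine ⟨Polynomial.C t * a, Polynomial.C (conj t) * b, fun θ => ?_⟩
    rw [ContinuousMap.smul_apply, hab]
    simp only [Polynomial.eval_mul, Polynomial.eval_C, map_mul, conj_conj, smul_eq_mul]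
    ring

theorem approx {u : ℂ → ℝ} (hu : Continuous u) (c : ℂ) {R : ℝ} (hR : 0 < R) {ε : ℝ}
    (hε : 0 < ε) : ∃ q : Polynomial ℂ, ∀ z ∈ sphere c R, |(q.eval ((z - c) / R)).re - u z| ≤ ε := by
  let G : C(AddCircle (2 * π), ℂ) :=
    ⟨fun x => (u (c + R * (AddCircle.toCircle x : ℂ)) : ℂ), by
      have : Continuous fun x : AddCircle (2 * π) => (AddCircle.toCircle x : ℂ) :=
        continuous_subtype_val.comp AddCircle.continuous_toCircle
      fun_prop⟩
  have hG : G ∈ (Submodule.span ℂ (range (@fourier (2 * π)))).topologicalClosure := by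
    rw [span_fourier_closure_eq_top]
    trivial
  obtain ⟨F, hF, hFG⟩ := Metric.mem_closure_iff.1 hG ε hε
  obtain ⟨q₁, q₂, hq⟩ := PP_span F hF
  refine ⟨q₁ + q₂, fun z hz => ?_⟩
  obtain ⟨θ, -, hθ⟩ : ∃ θ ∈ Ioc 0 (2 * π), circleMap c R θ = z := by
    have : z ∈ circleMap c R '' Ioc 0 (2 * π) := by
      rw [image_circleMap_Ioc, abs_of_pos hR]
      exact hz
    exact this
  have hR' : (R : ℂ) ≠ 0 := by exact_mod_cast hR.ne'
  have hz1 : (z - c) / R = exp (θ * I) := by
    rw [← hθ, circleMap, add_sub_cancel_left, mul_div_cancel_left₀ _ hR']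
  have hGθ : G (θ : AddCircle (2 * π)) = (u z : ℂ) := by
    show ((u (c + R * (AddCircle.toCircle (θ : AddCircle (2 * π)) : ℂ)) : ℝ) : ℂ) = _
    rw [AddCircle.toCircle_apply_mk, Circle.coe_exp, div_self Real.two_pi_pos.ne', one_mul, ← hθ]
    rfl
  have h1 : ‖F (θ : AddCircle (2 * π)) - G (θ : AddCircle (2 * π))‖ ≤ ε := by
    have h2 := (F - G).norm_coe_le_norm (θ : AddCircle (2 * π))
    rw [ContinuousMap.sub_apply] at h2
    refine h2.trans ?_
    rw [← dist_eq_norm, dist_comm]
    exact hFG.le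
  have h2 : (Polynomial.eval ((z - c) / R) (q₁ + q₂)).re - u z =
      (F (θ : AddCircle (2 * π)) - G (θ : AddCircle (2 * π))).re := by
    rw [hq, hGθ, hz1, Polynomial.eval_add]
    simp
  rw [h2]
  exact (Complex.abs_re_le_norm _).trans h1

/-- real parts of circle averages -/
theorem re_average {f : ℂ → ℂ} {c : ℂ} {r : ℝ} (hf : CircleIntegrable f c r) :
    Real.circleAverage (fun z => (f z).re) c r = (Real.circleAverage f c r).re :=
  Complex.reCLM.circleAverage_comp_comm hf

theorem cont_pk {c p : ℂ} {R : ℝ} (hR : 0 < R) (hp : p ∈ ball c R) :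
    ContinuousOn (poissonKernel c p) (sphere c |R|) := by
  unfold poissonKernel
  refine ContinuousOn.div (by fun_prop) (by fun_prop) fun z hz => ?_
  rw [mem_sphere, abs_of_pos hR, Complex.dist_eq] at hz
  rw [mem_ball, Complex.dist_eq] at hp
  have : (z - c) - (p - c) ≠ 0 := by
    intro h
    rw [sub_eq_zero] at h
    rw [h] at hz
    linarith
  positivity

theorem pk_nonneg {c p : ℂ} {R : ℝ} (hR : 0 < R) (hp : p ∈ ball c R) {z : ℂ}
    (hz : z ∈ sphere c |R|) : 0 ≤ poissonKernel c p z := by
  unfold poissonKernel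
  rw [mem_sphere, abs_of_pos hR, Complex.dist_eq] at hz
  rw [mem_ball, Complex.dist_eq] at hp
  rw [hz]
  have : 0 ≤ R ^ 2 - ‖p - c‖ ^ 2 := by nlinarith [norm_nonneg (p - c)]
  positivity

theorem smp : T_SMP := by
  intro u hu c p R hR hp
  refine le_of_forall_pos_le_add fun δ hδ => ?_
  obtain ⟨q, hq⟩ := approx hu.1 c hR (half_pos hδ)
  set f : ℂ → ℂ := fun z => q.eval ((z - c) / R) with hf
  have hfd : Differentiable ℂ f := by
    have h1 : Differentiable ℂ fun z : ℂ => (z - c) / R := by fun_prop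
    exact q.differentiable.comp h1
  have hfc : Continuous f := hfd.continuous
  have hfre : Continuous fun z => (f z).re := Complex.continuous_re.comp hfc
  -- the mean value property of the real part of `f`
  have hmean : ∀ (c' : ℂ) (r : ℝ), Real.circleAverage (fun z => (f z).re) c' r = (f c').re := by
    intro c' r
    rw [re_average hfc.continuousOn.circleIntegrable']
    congr 1
    exact (hfd.diffContOnCl (s := ball c' |r|)).circleAverage
  have hv : SubM fun z => u z - (f z).re - δ / 2 := by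
    refine ⟨(hu.1.sub hfre).sub continuous_const, fun c' => ?_⟩
    obtain ⟨r₀, hr₀, hr⟩ := hu.2 c'
    refine ⟨r₀, hr₀, fun r h1 h2 => ?_⟩
    have e1 := Real.circleAverage_fun_sub (f₁ := fun z => u z - (f z).re) (f₂ := fun _ => δ / 2)
      (circInt (hu.1.sub hfre) c' r) (circInt continuous_const c' r)
    have e2 := Real.circleAverage_fun_sub (f₁ := u) (f₂ := fun z => (f z).re)
      (circInt hu.1 c' r) (circInt hfre c' r)
    rw [e2, hmean, Real.circleAverage_const] at e1
    show u c' - (f c').re - δ / 2 ≤ Real.circleAverage (fun z => u z - (f z).re - δ / 2) c' r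
    rw [e1]
    have e3 : Real.circleAverage u c' r = Real.circleAverage (fun z => u z) c' r := rfl
    linarith [hr r h1 h2]
  have h1 : u p ≤ (f p).re + δ / 2 := by
    have := max_principle hv (c := c) (R := R) (fun z hz => by
      have h2 := abs_le.1 (hq z hz)
      have h3 : (f z).re - u z = (q.eval ((z - c) / R)).re - u z := rfl
      linarith [h2.1]) p (ball_subset_closedBall hp)
    linarith
  -- the Poisson formula
  have hpk := cont_pk hR hp
  have h2 : Real.circleAverage (fun z => poissonKernel c p z * (f z).re) c R = (f p).re := by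
    have h3 := (hfd.diffContOnCl (s := ball c R)).circleAverage_poissonKernel_smul hp
    have h4 : CircleIntegrable (poissonKernel c p • f) c R := by
      refine ContinuousOn.circleIntegrable' ?_
      exact hpk.smul hfc.continuousOn
    have h5 := re_average h4
    rw [h3] at h5
    rw [← h5]
    congr 1
    ext z
    simp
  have h3 : Real.circleAverage (fun z => poissonKernel c p z) c R = 1 := by
    have h3 := (differentiable_const (1 : ℂ)).diffContOnCl (s := ball c R)
      |>.circleAverage_poissonKernel_smul hp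
    have h4 : CircleIntegrable (poissonKernel c p • fun _ : ℂ => (1 : ℂ)) c R := by
      refine ContinuousOn.circleIntegrable' ?_
      exact hpk.smul continuousOn_const
    have h5 := re_average h4
    rw [h3, Complex.one_re] at h5
    rw [← h5]
    congr 1
    ext z
    simp
  have i1 : CircleIntegrable (fun z => poissonKernel c p z * (f z).re) c R :=
    ContinuousOn.circleIntegrable' (hpk.mul hfre.continuousOn)
  have i2 : CircleIntegrable (fun z => poissonKernel c p z * u z) c R :=
    ContinuousOn.circleIntegrable' (hpk.mul hu.1.continuousOn)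
  have i3 : CircleIntegrable (fun z => poissonKernel c p z * (δ / 2)) c R :=
    ContinuousOn.circleIntegrable' (hpk.mul continuousOn_const)
  have h4 : Real.circleAverage (fun z => poissonKernel c p z * (f z).re) c R ≤
      Real.circleAverage (fun z => poissonKernel c p z * u z + poissonKernel c p z * (δ / 2)) c R := by
    refine Real.circleAverage_mono i1 (i2.add i3) fun z hz => ?_
    have h5 := pk_nonneg hR hp hz
    rw [abs_of_pos hR] at hz
    have h6 := abs_le.1 (hq z hz)
    have h7 : (f z).re ≤ u z + δ / 2 := by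
      have h3 : (f z).re - u z = (q.eval ((z - c) / R)).re - u z := rfl
      linarith [h6.2]
    rw [← mul_add]
    exact mul_le_mul_of_nonneg_left h7 h5
  rw [Real.circleAverage_fun_add i2 i3] at h4
  have h5 : Real.circleAverage (fun z => poissonKernel c p z * (δ / 2)) c R = δ / 2 := by
    have h6 := Real.circleAverage_fun_smul (a := δ / 2) (f := fun z => poissonKernel c p z)
      (c := c) (R := R)
    simp only [smul_eq_mul] at h6
    rw [h3, mul_one] at h6
    have h7 : (fun z => poissonKernel c p z * (δ / 2)) = fun z => δ / 2 * poissonKernel c p z := by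
      ext z
      ring
    rw [h7]
    exact h6
  linarith

end Pool.Agent.H80.BP
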